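import Mathlib

set_option autoImplicit false

open Real

/-!
Gaussian weights on an abelian group: shifting by a random element.
-/

namespace Pool.Agent.Q288.DGC

noncomputable section

variable {G : Type} [AddCommGroup G] (B : G →+ G →+ ℝ) (β : ℝ)

lemma hasSum_of_eq {X : Type} {f g : X → ℝ} {a : ℝ} (h : ∀ x, f x = g x) (hg : HasSum g a) :
    HasSum f a := by
  rwa [show f = g from funext h]

/-- Gaussian weight. -/
def w (x : G) : ℝ := exp (-β * B x x)

/-- Density of the shifted measure. -/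
def L (t x : G) : ℝ := exp (-β * B t t + 2 * β * B t x)

lemma w_pos (x : G) : 0 < w B β x := exp_pos _

lemma L_pos (t x : G) : 0 < L B β t x := exp_pos _

lemma w_mul_L (hs : ∀ x y, B x y = B y x) (t x : G) : w B β x * L B β t x = w B β (x - t) := by
  unfold w L
  rw [← exp_add]
  congr 1
  simp only [map_sub, AddMonoidHom.sub_apply]
  rw [hs x t]
  ring

lemma L_mul_L (hs : ∀ x y, B x y = B y x) (s t x : G) :
    L B β s x * L B β t x = exp (2 * β * B s t) * L B β (s + t) x := by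
  unfold L
  rw [← exp_add, ← exp_add]
  congr 1
  simp only [map_add, AddMonoidHom.add_apply]
  rw [hs t s]
  ring

lemma summable_shift (hw : Summable (w B β)) (t : G) : Summable fun x => w B β (x - t) :=
  (Equiv.subRight t).summable_iff.2 hw

lemma tsum_shift (t : G) : ∑' x, w B β (x - t) = ∑' x, w B β x :=
  (Equiv.subRight t).tsum_eq (w B β)

variable {ι : Type} [Fintype ι] [Nonempty ι] (f : ι → G)

/-- The averaged density. -/
def Lb (x : G) : ℝ := (Fintype.card ι : ℝ)⁻¹ * ∑ t, L B β (f t) x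

/-- The averaged second moment. -/
def M2 : ℝ := (Fintype.card ι : ℝ)⁻¹ * ((Fintype.card ι : ℝ)⁻¹ *
  ∑ s, ∑ t, exp (2 * β * B (f s) (f t)))

lemma card_pos' : (0 : ℝ) < Fintype.card ι := by
  exact_mod_cast Fintype.card_pos

omit [Nonempty ι] in
lemma Lb_pos [Nonempty ι] (x : G) : 0 < Lb B β f x := by
  unfold Lb
  apply mul_pos (inv_pos.2 card_pos')
  exact Finset.sum_pos (fun t _ => L_pos B β (f t) x) Finset.univ_nonempty

omit [Nonempty ι] in
lemma avg_const [Nonempty ι] (c : ℝ) : (Fintype.card ι : ℝ)⁻¹ * ∑ _t : ι, c = c := by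
  rw [Finset.sum_const, Finset.card_univ, nsmul_eq_mul, ← mul_assoc,
    inv_mul_cancel₀ (card_pos' (ι := ι)).ne', one_mul]

lemma hasSum_wL (hs : ∀ x y, B x y = B y x) (hw : Summable (w B β)) (t : G) :
    HasSum (fun x => w B β x * L B β t x) (∑' x, w B β x) := by
  have h1 : (fun x => w B β x * L B β t x) = fun x => w B β (x - t) := by
    funext x; exact w_mul_L B β hs t x
  rw [h1, ← tsum_shift B β t]
  exact (summable_shift B β hw t).hasSum

lemma hasSum_wLb (hs : ∀ x y, B x y = B y x) (hw : Summable (w B β)) :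
    HasSum (fun x => w B β x * Lb B β f x) (∑' x, w B β x) := by
  have h1 : HasSum (fun x => ∑ t, w B β x * L B β (f t) x) (∑ _t : ι, ∑' x, w B β x) :=
    hasSum_sum fun t _ => hasSum_wL B β hs hw (f t)
  have h2 := h1.mul_left (Fintype.card ι : ℝ)⁻¹
  rw [avg_const] at h2
  refine hasSum_of_eq (fun x => ?_) h2
  unfold Lb
  rw [← Finset.mul_sum]
  ring

lemma hasSum_wLL (hs : ∀ x y, B x y = B y x) (hw : Summable (w B β)) (s t : G) :
    HasSum (fun x => w B β x * (L B β s x * L B β t x))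
      (exp (2 * β * B s t) * ∑' x, w B β x) := by
  have h1 := (hasSum_wL B β hs hw (s + t)).mul_left (exp (2 * β * B s t))
  refine hasSum_of_eq (fun x => ?_) h1
  rw [L_mul_L B β hs]
  ring

lemma hasSum_wLb2 (hs : ∀ x y, B x y = B y x) (hw : Summable (w B β)) :
    HasSum (fun x => w B β x * Lb B β f x ^ 2) (M2 B β f * ∑' x, w B β x) := by
  have h1 : HasSum (fun x => ∑ s, ∑ t, w B β x * (L B β (f s) x * L B β (f t) x))
      (∑ s, ∑ t, exp (2 * β * B (f s) (f t)) * ∑' x, w B β x) :=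
    hasSum_sum fun s _ => hasSum_sum fun t _ => hasSum_wLL B β hs hw (f s) (f t)
  have h2 := (h1.mul_left (Fintype.card ι : ℝ)⁻¹).mul_left (Fintype.card ι : ℝ)⁻¹
  have h3 : M2 B β f * ∑' x, w B β x = (Fintype.card ι : ℝ)⁻¹ * ((Fintype.card ι : ℝ)⁻¹ *
      ∑ s, ∑ t, exp (2 * β * B (f s) (f t)) * ∑' x, w B β x) := by
    unfold M2
    simp only [← Finset.sum_mul]
    ring
  rw [h3]
  refine hasSum_of_eq (fun x => ?_) h2
  unfold Lb
  rw [mul_pow, pow_two (∑ t, L B β (f t) x), Finset.sum_mul_sum]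
  simp only [← Finset.mul_sum]
  ring

/-- The main inequality: an average of shifts changes probabilities little. -/
lemma shift_le (hs : ∀ x y, B x y = B y x) (hw : Summable (w B β)) (φ : G → ℝ)
    (h0 : ∀ x, 0 ≤ φ x) (h1 : ∀ x, φ x ≤ 1) (hM : M2 B β f ≤ 5 / 4) :
    ∑' x, φ x * w B β x ≤ (Fintype.card ι : ℝ)⁻¹ * ∑ t, ∑' x, φ (x + f t) * w B β x +
      (1 / 2) * ∑' x, w B β x := by
  have hsum : ∀ ψ : G → ℝ, (∀ x, 0 ≤ ψ x) → (∀ x, ψ x ≤ 1) → ∀ g : G → ℝ, (∀ x, 0 ≤ g x) →
      Summable g → Summable fun x => ψ x * g x := by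
    intro ψ hψ0 hψ1 g hg0 hg
    refine Summable.of_nonneg_of_le (fun x => mul_nonneg (hψ0 x) (hg0 x)) (fun x => ?_) hg
    calc ψ x * g x ≤ 1 * g x := mul_le_mul_of_nonneg_right (hψ1 x) (hg0 x)
      _ = g x := one_mul _
  have hA : ∀ t, ∑' x, φ (x + f t) * w B β x = ∑' x, φ x * (w B β x * L B β (f t) x) := by
    intro t
    rw [← (Equiv.subRight (f t)).tsum_eq (fun x => φ (x + f t) * w B β x)]
    apply tsum_congr
    intro x
    simp only [Equiv.subRight_apply, sub_add_cancel]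
    rw [w_mul_L B β hs]
  have hB : (Fintype.card ι : ℝ)⁻¹ * ∑ t, ∑' x, φ (x + f t) * w B β x =
      ∑' x, φ x * (w B β x * Lb B β f x) := by
    have h2 : HasSum (fun x => ∑ t, φ x * (w B β x * L B β (f t) x))
        (∑ t, ∑' x, φ x * (w B β x * L B β (f t) x)) :=
      hasSum_sum fun t _ => (hsum φ h0 h1 _ (fun x => (mul_pos (w_pos B β x) (L_pos B β _ x)).le)
        (hasSum_wL B β hs hw (f t)).summable).hasSum
    have h3 := h2.mul_left (Fintype.card ι : ℝ)⁻¹
    simp only [hA]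
    rw [← h3.tsum_eq]
    apply tsum_congr
    intro x
    unfold Lb
    simp only [← Finset.mul_sum]
    ring
  rw [hB]
  have s1 := hasSum_wLb B β f hs hw
  have s2 := hasSum_wLb2 B β f hs hw
  have s0 := hw.hasSum
  -- pointwise bound
  have key : ∀ x, φ x * w B β x ≤ φ x * (w B β x * Lb B β f x) +
      (w B β x * Lb B β f x ^ 2 - 2 * (w B β x * Lb B β f x) + (5 / 4) * w B β x) := by
    intro x
    have hwx := w_pos B β x
    have hq : φ x * (1 - Lb B β f x) ≤ (Lb B β f x - 1) ^ 2 + 1 / 4 := by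
      nlinarith [h0 x, h1 x, sq_nonneg (Lb B β f x - 1 + φ x / 2), sq_nonneg (φ x)]
    nlinarith [mul_le_mul_of_nonneg_left hq hwx.le]
  have t1 := hsum φ h0 h1 (w B β) (fun x => (w_pos B β x).le) hw
  have t2 := hsum φ h0 h1 (fun x => w B β x * Lb B β f x)
    (fun x => (mul_pos (w_pos B β x) (Lb_pos B β f x)).le) s1.summable
  have s3 := (s2.sub (s1.mul_left 2)).add (s0.mul_left (5 / 4))
  have := hasSum_le key t1.hasSum (t2.hasSum.add s3)
  have hZ : 0 ≤ ∑' x, w B β x := tsum_nonneg fun x => (w_pos B β x).le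
  nlinarith [mul_le_mul_of_nonneg_right hM hZ]

/-- If all shifts raise the height `h` by `k`, and the averaged second moment is at most `5/4`,
then `|h| ≥ k / 2` with probability at least `1 / 4`. -/
lemma quarter (hs : ∀ x y, B x y = B y x) (hw : Summable (w B β)) (h : G →+ ℤ) (k : ℤ)
    (hk : ∀ t, h (f t) = k) (hM : M2 B β f ≤ 5 / 4) :
    (1 / 4) * ∑' x, w B β x ≤ ∑' x, (if |k| ≤ 2 * |h x| then (1 : ℝ) else 0) * w B β x := by
  set φ : G → ℝ := fun x => if 2 * |h x| < |k| then 1 else 0 with hφ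
  set ψ : G → ℝ := fun x => if |k| ≤ 2 * |h x| then 1 else 0 with hψ
  have h0 : ∀ x, 0 ≤ φ x := fun x => by simp only [hφ]; split_ifs <;> norm_num
  have h1 : ∀ x, φ x ≤ 1 := fun x => by simp only [hφ]; split_ifs <;> norm_num
  have g0 : ∀ x, 0 ≤ ψ x := fun x => by simp only [hψ]; split_ifs <;> norm_num
  have g1 : ∀ x, ψ x ≤ 1 := fun x => by simp only [hψ]; split_ifs <;> norm_num
  have hadd : ∀ x, φ x + ψ x = 1 := by
    intro x
    simp only [hφ, hψ]
    by_cases hx : 2 * |h x| < |k|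
    · rw [if_pos hx, if_neg (not_le.2 hx)]; norm_num
    · rw [if_neg hx, if_pos (not_lt.1 hx)]; norm_num
  have hsum : ∀ ψ : G → ℝ, (∀ x, 0 ≤ ψ x) → (∀ x, ψ x ≤ 1) → Summable fun x => ψ x * w B β x := by
    intro ψ hψ0 hψ1
    refine Summable.of_nonneg_of_le (fun x => mul_nonneg (hψ0 x) (w_pos B β x).le) (fun x => ?_) hw
    calc ψ x * w B β x ≤ 1 * w B β x := mul_le_mul_of_nonneg_right (hψ1 x) (w_pos B β x).le
      _ = w B β x := one_mul _
  have e1 : ∑' x, φ x * w B β x + ∑' x, ψ x * w B β x = ∑' x, w B β x := by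
    rw [← (hsum φ h0 h1).tsum_add (hsum ψ g0 g1)]
    apply tsum_congr
    intro x
    rw [← add_mul, hadd, one_mul]
  have e2 : ∀ t, ∑' x, φ (x + f t) * w B β x ≤ ∑' x, ψ x * w B β x := by
    intro t
    refine (hsum _ (fun x => h0 _) (fun x => h1 _)).tsum_le_tsum (fun x => ?_) (hsum ψ g0 g1)
    refine mul_le_mul_of_nonneg_right ?_ (w_pos B β x).le
    simp only [hφ, hψ, map_add, hk]
    by_cases hx : |k| ≤ 2 * |h x|
    · rw [if_pos hx]; split_ifs <;> norm_num
    · rw [if_neg hx, if_neg]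
      push Not at hx ⊢
      have := abs_sub_abs_le_abs_sub k (-(h x))
      rw [abs_neg, sub_neg_eq_add, add_comm k] at this
      linarith
  have e3 : (Fintype.card ι : ℝ)⁻¹ * ∑ t, ∑' x, φ (x + f t) * w B β x ≤ ∑' x, ψ x * w B β x := by
    calc (Fintype.card ι : ℝ)⁻¹ * ∑ t, ∑' x, φ (x + f t) * w B β x
        ≤ (Fintype.card ι : ℝ)⁻¹ * ∑ _t : ι, ∑' x, ψ x * w B β x := by
          apply mul_le_mul_of_nonneg_left _ (inv_pos.2 card_pos').le
          exact Finset.sum_le_sum fun t _ => e2 t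
      _ = _ := avg_const _
  have e4 := shift_le B β f hs hw φ h0 h1 hM
  linarith

end

end Pool.Agent.Q288.DGC
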