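import Mathlib

set_option autoImplicit false

open Real

/-!
Two elementary sums of powers.
-/

namespace Pool.Agent.Q288.DGC

noncomputable section

/-- `γ x^(-γ-1) ≤ (x-1)^(-γ) - x^(-γ)` for `x > 1`. -/
lemma tail_step {a x : ℝ} (ha : 0 < a) (hx : 1 < x) :
    a * x ^ (-(a + 1)) ≤ (x - 1) ^ (-a) - x ^ (-a) := by
  have hx0 : 0 < x := by linarith
  have hx1 : 0 < x - 1 := by linarith
  have h1 : (x - 1) ^ (-a) = x ^ (-a) * (1 - 1 / x) ^ (-a) := by
    rw [← Real.mul_rpow hx0.le (by rw [sub_nonneg, div_le_one hx0]; exact hx.le)]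
    congr 1
    field_simp
  have h2 : 1 + a * (1 / x) ≤ (1 - 1 / x) ^ (-a) := by
    have h3 : 0 < 1 - 1 / x := by rw [sub_pos, div_lt_one hx0]; exact hx
    rw [Real.rpow_def_of_pos h3]
    have h4 : Real.log (1 - 1 / x) ≤ - (1 / x) := by
      have := Real.log_le_sub_one_of_pos h3
      linarith
    have h5 : a * (1 / x) ≤ Real.log (1 - 1 / x) * -a := by nlinarith
    have h6 := Real.add_one_le_exp (Real.log (1 - 1 / x) * -a)
    linarith
  have h7 : x ^ (-(a + 1)) = x ^ (-a) * (1 / x) := by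
    rw [neg_add, Real.rpow_add hx0, Real.rpow_neg_one, one_div]
  rw [h1, h7]
  have h8 : 0 < x ^ (-a) := Real.rpow_pos_of_pos hx0 _
  nlinarith [mul_le_mul_of_nonneg_left h2 h8.le]

/-- Tail sums of `x^(-(a+1))`. -/
lemma tail_sum {a : ℝ} (ha : 0 < a) {d : ℝ} (hd : 1 ≤ d) (M : ℕ) :
    ∑ u ∈ Finset.range (M + 1), (d + u) ^ (-(a + 1)) ≤
      (1 + 1 / a) * d ^ (-a) - (1 / a) * (d + M) ^ (-a) := by
  induction M with
  | zero =>
    rw [Finset.sum_range_one]
    simp only [Nat.cast_zero, add_zero]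
    have h1 : d ^ (-(a + 1)) ≤ d ^ (-a) := Real.rpow_le_rpow_of_exponent_le hd (by linarith)
    linarith
  | succ M ih =>
    rw [Finset.sum_range_succ]
    have h0 : (0 : ℝ) ≤ M := Nat.cast_nonneg M
    have h1 := tail_step ha (x := d + ((M + 1 : ℕ) : ℝ)) (by push_cast; linarith)
    have h2 : d + ((M + 1 : ℕ) : ℝ) - 1 = d + M := by push_cast; ring
    rw [h2] at h1
    have h3 : (d + ((M + 1 : ℕ) : ℝ)) ^ (-(a + 1)) ≤
        (1 / a) * (d + M) ^ (-a) - (1 / a) * (d + ((M + 1 : ℕ) : ℝ)) ^ (-a) := by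
      rw [← mul_sub, one_div, ← div_eq_inv_mul, le_div_iff₀ ha, mul_comm]
      exact h1
    linarith

lemma tail_summable {a : ℝ} (ha : 0 < a) {d : ℝ} (hd : 1 ≤ d) :
    Summable fun u : ℕ => (d + u) ^ (-(a + 1)) := by
  apply summable_of_sum_range_le (c := (1 + 1 / a) * d ^ (-a))
  · intro u
    have : (0 : ℝ) ≤ u := Nat.cast_nonneg u
    exact (Real.rpow_pos_of_pos (by linarith) _).le
  · intro M
    have h0 : (0 : ℝ) ≤ M := Nat.cast_nonneg M
    have h1 := tail_sum ha hd M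
    rw [Finset.sum_range_succ] at h1
    have h2 : 0 < (d + M) ^ (-(a + 1)) := Real.rpow_pos_of_pos (by linarith) _
    have h3 : 0 < (d + M) ^ (-a) := Real.rpow_pos_of_pos (by linarith) _
    have h4 : 0 < 1 / a := by positivity
    nlinarith

lemma tail_tsum {a : ℝ} (ha : 0 < a) {d : ℝ} (hd : 1 ≤ d) :
    ∑' u : ℕ, (d + u) ^ (-(a + 1)) ≤ (1 + 1 / a) * d ^ (-a) := by
  apply Real.tsum_le_of_sum_range_le
  · intro u
    have : (0 : ℝ) ≤ u := Nat.cast_nonneg u
    exact (Real.rpow_pos_of_pos (by linarith) _).le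
  · intro M
    have h0 : (0 : ℝ) ≤ M := Nat.cast_nonneg M
    have h1 := tail_sum ha hd M
    rw [Finset.sum_range_succ] at h1
    have h2 : 0 < (d + M) ^ (-(a + 1)) := Real.rpow_pos_of_pos (by linarith) _
    have h3 : 0 < (d + M) ^ (-a) := Real.rpow_pos_of_pos (by linarith) _
    have h4 : 0 < 1 / a := by positivity
    nlinarith

/-- Partial sums of `(1 + m)^(-σ)`, `0 < σ < 1`. -/
lemma part_sum {σ : ℝ} (h0 : 0 < σ) (h1 : σ < 1) (M : ℕ) :
    ∑ m ∈ Finset.range M, (1 + (m : ℝ)) ^ (-σ) ≤ (M : ℝ) ^ (1 - σ) / (1 - σ) := by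
  have hs : 0 < 1 - σ := by linarith
  induction M with
  | zero =>
    simp only [Finset.range_zero, Finset.sum_empty]
    positivity
  | succ M ih =>
    rw [Finset.sum_range_succ]
    have hM : (0 : ℝ) ≤ M := Nat.cast_nonneg M
    have hx : 0 < (M : ℝ) + 1 := by linarith
    have h2 : (M : ℝ) ^ (1 - σ) = ((M : ℝ) + 1) ^ (1 - σ) * (1 + -(1 / ((M : ℝ) + 1))) ^ (1 - σ) := by
      rw [← Real.mul_rpow hx.le (by
        rw [← sub_eq_add_neg, sub_nonneg, div_le_one hx]; linarith)]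
      congr 1
      field_simp
      ring
    have h3 : (1 + -(1 / ((M : ℝ) + 1))) ^ (1 - σ) ≤ 1 + (1 - σ) * -(1 / ((M : ℝ) + 1)) := by
      apply rpow_one_add_le_one_add_mul_self _ hs.le (by linarith)
      rw [neg_le_neg_iff, div_le_one hx]
      linarith
    have h4 : (1 + (M : ℝ)) ^ (-σ) = ((M : ℝ) + 1) ^ (1 - σ) * (1 / ((M : ℝ) + 1)) := by
      rw [add_comm, show -σ = (1 - σ) + (-1) by ring, Real.rpow_add hx, Real.rpow_neg_one, one_div]
    have h5 : 0 < ((M : ℝ) + 1) ^ (1 - σ) := Real.rpow_pos_of_pos hx _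
    have h6 := mul_le_mul_of_nonneg_left h3 h5.le
    rw [← h2] at h6
    push_cast
    rw [h4]
    have h7 : ((M : ℝ) + 1) ^ (1 - σ) * (1 / ((M : ℝ) + 1)) ≤
        (((M : ℝ) + 1) ^ (1 - σ) - (M : ℝ) ^ (1 - σ)) / (1 - σ) := by
      rw [le_div_iff₀ hs]
      linarith
    rw [sub_div] at h7
    linarith

/-- Sum of a decreasing-type function of the distance. -/
lemma dist_sum (g : ℕ → ℝ) (hg : ∀ m, 0 ≤ g m) (M b : ℕ) (hb : b < M) :
    ∑ t ∈ Finset.range M, g ((t : ℤ) - b).natAbs ≤ 2 * ∑ m ∈ Finset.range M, g m := by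
  have h1 : ∑ t ∈ Finset.range M, g ((t : ℤ) - b).natAbs =
      ∑ t ∈ Finset.range (b + 1), g ((t : ℤ) - b).natAbs +
        ∑ t ∈ Finset.Ico (b + 1) M, g ((t : ℤ) - b).natAbs := by
    rw [Finset.range_eq_Ico, Finset.range_eq_Ico]
    exact (Finset.sum_Ico_consecutive _ (Nat.zero_le _) hb).symm
  have h2 : ∑ t ∈ Finset.range (b + 1), g ((t : ℤ) - b).natAbs =
      ∑ m ∈ Finset.range (b + 1), g m := by
    rw [← Finset.sum_range_reflect]
    apply Finset.sum_congr rfl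
    intro t ht
    rw [Finset.mem_range] at ht
    congr 1
    omega
  have h3 : ∑ t ∈ Finset.Ico (b + 1) M, g ((t : ℤ) - b).natAbs =
      ∑ m ∈ Finset.Ico 1 (M - b), g m := by
    rw [Finset.sum_Ico_eq_sum_range, Finset.sum_Ico_eq_sum_range]
    have : M - (b + 1) = M - b - 1 := by omega
    rw [this]
    apply Finset.sum_congr rfl
    intro t _
    congr 1
    omega
  have h4 : ∑ m ∈ Finset.range (b + 1), g m ≤ ∑ m ∈ Finset.range M, g m :=
    Finset.sum_le_sum_of_subset_of_nonneg (Finset.range_subset_range.2 hb) fun m _ _ => hg m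
  have h5 : ∑ m ∈ Finset.Ico 1 (M - b), g m ≤ ∑ m ∈ Finset.range M, g m := by
    apply Finset.sum_le_sum_of_subset_of_nonneg _ fun m _ _ => hg m
    intro m hm
    rw [Finset.mem_Ico] at hm
    rw [Finset.mem_range]
    omega
  rw [h1, h2, h3]
  linarith

end

end Pool.Agent.Q288.DGC
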