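import Pool.Agent.Q288.DGC.Defs
import Pool.Agent.Q288.DGC.Tail

set_option autoImplicit false

open Real

/-!
The energy form evaluated at indicator functions of centred intervals.
-/

namespace Pool.Agent.Q288.DGC

noncomputable section

/-- Indicator of `{-r, …, r}`. -/
def indF (r : ℕ) : ℤ → ℤ := fun x => if |x| ≤ r then 1 else 0

/-- Right region. -/
def R1 (α : ℝ) (r s : ℕ) (q : ℤ × ℕ) : ℝ :=
  if q.1 ≤ r ∧ (s : ℤ) < q.1 + q.2 + 1 then J α q else 0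

/-- Left region. -/
def R2 (α : ℝ) (r s : ℕ) (q : ℤ × ℕ) : ℝ :=
  if q.1 < -(s : ℤ) ∧ -(r : ℤ) ≤ q.1 + q.2 + 1 then J α q else 0

lemma prod_le (α : ℝ) {r s : ℕ} (hrs : r ≤ s) (q : ℤ × ℕ) :
    J α q * (D (indF r) q * D (indF s) q) ≤ R1 α r s q + R2 α r s q := by
  have hJ := J_pos α q
  obtain ⟨x, m⟩ := q
  simp only [D, indF, R1, R2]
  have a1 : ((if |x + m + 1| ≤ (r : ℤ) then (1 : ℤ) else 0 : ℤ) : ℝ) =
      if |x + m + 1| ≤ (r : ℤ) then 1 else 0 := by split_ifs <;> norm_num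
  have a2 : ((if |x + m + 1| ≤ (s : ℤ) then (1 : ℤ) else 0 : ℤ) : ℝ) =
      if |x + m + 1| ≤ (s : ℤ) then 1 else 0 := by split_ifs <;> norm_num
  have a3 : ((if |x| ≤ (r : ℤ) then (1 : ℤ) else 0 : ℤ) : ℝ) =
      if |x| ≤ (r : ℤ) then 1 else 0 := by split_ifs <;> norm_num
  have a4 : ((if |x| ≤ (s : ℤ) then (1 : ℤ) else 0 : ℤ) : ℝ) =
      if |x| ≤ (s : ℤ) then 1 else 0 := by split_ifs <;> norm_num
  rw [a1, a2, a3, a4]
  by_cases c1 : |x + m + 1| ≤ (r : ℤ) <;> by_cases c2 : |x + m + 1| ≤ (s : ℤ) <;>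
    by_cases c3 : |x| ≤ (r : ℤ) <;> by_cases c4 : |x| ≤ (s : ℤ) <;>
    by_cases c5 : x ≤ (r : ℤ) ∧ (s : ℤ) < x + m + 1 <;>
    by_cases c6 : x < -(s : ℤ) ∧ -(r : ℤ) ≤ x + m + 1 <;>
    simp only [c1, c2, c3, c4, c5, c6, if_true, if_false, and_self] <;>
    rw [abs_le] at c1 c2 c3 c4 <;>
    first
      | nlinarith
      | (exfalso; omega)

/-- Parametrisation of the right region. -/
def i1 (r s : ℕ) (p : ℕ × ℕ) : ℤ × ℕ := ((r : ℤ) - p.1, (s - r) + p.1 + p.2)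

/-- Parametrisation of the left region. -/
def i2 (r s : ℕ) (p : ℕ × ℕ) : ℤ × ℕ := (-((s : ℤ) + 1 + p.1), (s - r) + p.1 + p.2)

lemma i1_inj (r s : ℕ) : Function.Injective (i1 r s) := by
  intro p q h
  simp only [i1, Prod.mk.injEq] at h
  ext <;> omega

lemma i2_inj (r s : ℕ) : Function.Injective (i2 r s) := by
  intro p q h
  simp only [i2, Prod.mk.injEq] at h
  ext <;> omega

lemma supp1 (α : ℝ) {r s : ℕ} (hrs : r ≤ s) (q : ℤ × ℕ) (hq : q ∉ Set.range (i1 r s)) :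
    R1 α r s q = 0 := by
  unfold R1
  rw [if_neg]
  rintro ⟨h1, h2⟩
  apply hq
  refine ⟨(((r : ℤ) - q.1).toNat, (q.1 + q.2 - s).toNat), ?_⟩
  simp only [i1]
  ext
  · simp only; omega
  · simp only; omega

lemma supp2 (α : ℝ) {r s : ℕ} (hrs : r ≤ s) (q : ℤ × ℕ) (hq : q ∉ Set.range (i2 r s)) :
    R2 α r s q = 0 := by
  unfold R2
  rw [if_neg]
  rintro ⟨h1, h2⟩
  apply hq
  refine ⟨((-(s : ℤ) - 1 - q.1).toNat, (q.1 + q.2 + 1 + r).toNat), ?_⟩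
  simp only [i2]
  ext
  · simp only; omega
  · simp only; omega

lemma val1 (α : ℝ) {r s : ℕ} (hrs : r ≤ s) (p : ℕ × ℕ) :
    R1 α r s (i1 r s p) = 1 / ((((s - r) + p.1 + p.2 : ℕ) : ℝ) + 1) ^ α := by
  unfold R1
  rw [if_pos]
  · rfl
  · simp only [i1]; constructor <;> omega

lemma val2 (α : ℝ) {r s : ℕ} (hrs : r ≤ s) (p : ℕ × ℕ) :
    R2 α r s (i2 r s p) = 1 / ((((s - r) + p.1 + p.2 : ℕ) : ℝ) + 1) ^ α := by
  unfold R2
  rw [if_pos]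
  · rfl
  · simp only [i2]; constructor <;> omega

/-- One-dimensional factor. -/
def Gf (a : ℝ) (e : ℕ) (u : ℕ) : ℝ := ((e : ℝ) + 1 + u) ^ (-(a + 1))

lemma Gf_pos (a : ℝ) (e u : ℕ) : 0 < Gf a e u := by unfold Gf; positivity

lemma val_le {a : ℝ} (ha : 0 < a) (e u v : ℕ) :
    1 / (((e + u + v : ℕ) : ℝ) + 1) ^ (2 * (a + 1)) ≤ Gf a e u * Gf a e v := by
  have hx : (0 : ℝ) < ((e + u + v : ℕ) : ℝ) + 1 := by positivity
  rw [one_div, ← Real.rpow_neg hx.le, show -(2 * (a + 1)) = -(a + 1) + -(a + 1) by ring,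
    Real.rpow_add hx]
  unfold Gf
  have h1 : (((e + u + v : ℕ) : ℝ) + 1) ^ (-(a + 1)) ≤ ((e : ℝ) + 1 + u) ^ (-(a + 1)) := by
    apply Real.rpow_le_rpow_of_nonpos (by positivity) _ (by linarith)
    push_cast
    have : (0 : ℝ) ≤ v := Nat.cast_nonneg v
    linarith
  have h2 : (((e + u + v : ℕ) : ℝ) + 1) ^ (-(a + 1)) ≤ ((e : ℝ) + 1 + v) ^ (-(a + 1)) := by
    apply Real.rpow_le_rpow_of_nonpos (by positivity) _ (by linarith)
    push_cast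
    have : (0 : ℝ) ≤ u := Nat.cast_nonneg u
    linarith
  exact mul_le_mul h1 h2 (Real.rpow_pos_of_pos hx _).le (by positivity)

lemma G_summable {a : ℝ} (ha : 0 < a) (e : ℕ) : Summable (Gf a e) := by
  have h : (1 : ℝ) ≤ (e : ℝ) + 1 := by
    have : (0 : ℝ) ≤ e := Nat.cast_nonneg e
    linarith
  exact tail_summable ha h

lemma G_tsum {a : ℝ} (ha : 0 < a) (e : ℕ) :
    ∑' u, Gf a e u ≤ (1 + 1 / a) * ((e : ℝ) + 1) ^ (-a) := by
  have h : (1 : ℝ) ≤ (e : ℝ) + 1 := by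
    have : (0 : ℝ) ≤ e := Nat.cast_nonneg e
    linarith
  exact tail_tsum ha h

lemma GG_summable {a : ℝ} (ha : 0 < a) (e : ℕ) :
    Summable fun p : ℕ × ℕ => Gf a e p.1 * Gf a e p.2 :=
  (G_summable ha e).mul_of_nonneg (G_summable ha e) (fun u => (Gf_pos a e u).le)
    (fun u => (Gf_pos a e u).le)

lemma region_bound {a : ℝ} (ha : 0 < a) (e : ℕ) (R : ℤ × ℕ → ℝ) (i : ℕ × ℕ → ℤ × ℕ)
    (hi : Function.Injective i) (h0 : ∀ q, q ∉ Set.range i → R q = 0)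
    (hv : ∀ p, R (i p) = 1 / (((e + p.1 + p.2 : ℕ) : ℝ) + 1) ^ (2 * (a + 1))) :
    Summable R ∧ ∑' q, R q ≤ ((1 + 1 / a) * ((e : ℝ) + 1) ^ (-a)) ^ 2 := by
  have hs : Summable (R ∘ i) := by
    refine Summable.of_nonneg_of_le (fun p => ?_) (fun p => ?_) (GG_summable ha e)
    · simp only [Function.comp_apply, hv]; positivity
    · simp only [Function.comp_apply, hv]; exact val_le ha e p.1 p.2
  refine ⟨(hi.summable_iff h0).1 hs, ?_⟩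
  have h1 : ∑' q, R q = ∑' p, R (i p) := by
    refine (hi.tsum_eq ?_).symm
    intro q hq
    by_contra hcon
    exact hq (h0 q hcon)
  rw [h1]
  have h2 : ∑' p, R (i p) ≤ ∑' p : ℕ × ℕ, Gf a e p.1 * Gf a e p.2 := by
    refine Summable.tsum_le_tsum (fun p => ?_) hs (GG_summable ha e)
    rw [hv]
    exact val_le ha e p.1 p.2
  have h3 : ∑' p : ℕ × ℕ, Gf a e p.1 * Gf a e p.2 = (∑' u, Gf a e u) * ∑' u, Gf a e u :=
    ((G_summable ha e).tsum_mul_tsum (G_summable ha e) (GG_summable ha e)).symm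
  have h4 : 0 ≤ ∑' u, Gf a e u := tsum_nonneg fun u => (Gf_pos a e u).le
  rw [h3] at h2
  refine h2.trans ?_
  rw [pow_two]
  exact mul_le_mul (G_tsum ha e) (G_tsum ha e) h4 (by positivity)

lemma ind_bound {a : ℝ} (ha : 0 < a) {r s : ℕ} (hrs : r ≤ s)
    (hs : Summable fun q : ℤ × ℕ => J (2 * (a + 1)) q * (D (indF r) q * D (indF s) q)) :
    ∑' q : ℤ × ℕ, J (2 * (a + 1)) q * (D (indF r) q * D (indF s) q) ≤
      2 * (1 + 1 / a) ^ 2 * (1 + ((s - r : ℕ) : ℝ)) ^ (-(2 * a)) := by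
  obtain ⟨s1, b1⟩ := region_bound ha (s - r) (R1 (2 * (a + 1)) r s) (i1 r s) (i1_inj r s)
    (supp1 _ hrs) (val1 _ hrs)
  obtain ⟨s2, b2⟩ := region_bound ha (s - r) (R2 (2 * (a + 1)) r s) (i2 r s) (i2_inj r s)
    (supp2 _ hrs) (val2 _ hrs)
  have h1 := hs.tsum_le_tsum (prod_le (2 * (a + 1)) hrs) (s1.add s2)
  rw [s1.tsum_add s2] at h1
  have h2 : (((s - r : ℕ) : ℝ) + 1) ^ (-a) * (((s - r : ℕ) : ℝ) + 1) ^ (-a) =
      (1 + ((s - r : ℕ) : ℝ)) ^ (-(2 * a)) := by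
    rw [← Real.rpow_add (by positivity), add_comm]
    congr 1
    ring
  calc _ ≤ _ := h1
    _ ≤ ((1 + 1 / a) * (((s - r : ℕ) : ℝ) + 1) ^ (-a)) ^ 2 +
        ((1 + 1 / a) * (((s - r : ℕ) : ℝ) + 1) ^ (-a)) ^ 2 := add_le_add b1 b2
    _ = 2 * (1 + 1 / a) ^ 2 * ((((s - r : ℕ) : ℝ) + 1) ^ (-a) * (((s - r : ℕ) : ℝ) + 1) ^ (-a)) := by
        ring
    _ = _ := by rw [h2]

end

end Pool.Agent.Q288.DGC
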