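import Pool.Agent.Q288.DGC.Abs

set_option autoImplicit false

open Real

/-!
The long-range discrete Gaussian chain: definitions and basic facts.
-/

namespace Pool.Agent.Q288.DGC

noncomputable section

/-- Integer height functions on `ℤ` that vanish outside `{-n, …, n}`. -/
def Conf (n : ℕ) : AddSubgroup (ℤ → ℤ) where
  carrier := {ψ | ∀ x : ℤ, (n : ℤ) < |x| → ψ x = 0}
  zero_mem' := fun _ _ => rfl
  add_mem' := fun {a b} ha hb x hx => by
    simp only [Pi.add_apply, ha x hx, hb x hx, add_zero]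
  neg_mem' := fun {a} ha x hx => by
    simp only [Pi.neg_apply, ha x hx, neg_zero]

/-- The energy `H(ψ)`: the sum over all unordered pairs `{x, y}`, `x = q.1`,
`y = q.1 + q.2 + 1`, of `(ψ_x - ψ_y)² / |x - y|^α`. -/
def energy (α : ℝ) (ψ : ℤ → ℤ) : ℝ :=
  ∑' q : ℤ × ℕ, ((ψ (q.1 + q.2 + 1) : ℝ) - ψ q.1) ^ 2 / ((q.2 : ℝ) + 1) ^ α

/-- The normalising constant of the chain on `{-n, …, n}`. -/
def partitionFunction (α β : ℝ) (n : ℕ) : ℝ := ∑' ψ : Conf n, exp (-β * energy α ψ)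

/-- The expectation of `F(ψ_0)` under the discrete Gaussian chain on `{-n, …, n}`. -/
def expect (α β : ℝ) (n : ℕ) (F : ℤ → ℝ) : ℝ :=
  (∑' ψ : Conf n, F ((ψ : ℤ → ℤ) 0) * exp (-β * energy α ψ)) / partitionFunction α β n

/-- The variance of `ψ_0` under the discrete Gaussian chain on `{-n, …, n}`. -/
def variance (α β : ℝ) (n : ℕ) : ℝ :=
  expect α β n (fun h => (h : ℝ) ^ 2) - (expect α β n fun h => (h : ℝ)) ^ 2

/-- The gradient. -/
def D (f : ℤ → ℤ) (q : ℤ × ℕ) : ℝ := (f (q.1 + q.2 + 1) : ℝ) - f q.1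

/-- The coupling. -/
def J (α : ℝ) (q : ℤ × ℕ) : ℝ := 1 / ((q.2 : ℝ) + 1) ^ α

lemma J_pos (α : ℝ) (q : ℤ × ℕ) : 0 < J α q := by unfold J; positivity

lemma D_add (f g : ℤ → ℤ) (q : ℤ × ℕ) : D (f + g) q = D f q + D g q := by
  unfold D; push_cast [Pi.add_apply]; ring

lemma summable_J {α : ℝ} (hα : 1 < α) : Summable fun m : ℕ => 1 / ((m : ℝ) + 1) ^ α := by
  have := (summable_nat_add_iff 1).2 (Real.summable_one_div_nat_rpow.2 hα)
  refine this.congr fun m => ?_
  push_cast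
  rfl

lemma summable_sq {n : ℕ} (f : Conf n) : Summable fun x : ℤ => (((f : ℤ → ℤ) x : ℝ)) ^ 2 := by
  apply summable_of_ne_finset_zero (s := Finset.Icc (-(n : ℤ)) n)
  intro x hx
  rw [f.2 x]
  · norm_num
  · rw [Finset.mem_Icc, not_and_or, not_le, not_le] at hx
    rw [lt_abs]
    omega

/-- the map `(x, m) ↦ (x + m + 1, m)`. -/
def shiftEquiv : ℤ × ℕ ≃ ℤ × ℕ where
  toFun q := (q.1 + q.2 + 1, q.2)
  invFun q := (q.1 - q.2 - 1, q.2)
  left_inv q := by
    ext
    · simp only; ring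
    · rfl
  right_inv q := by
    ext
    · simp only; ring
    · rfl

lemma summable_DD {α : ℝ} (hα : 1 < α) {n : ℕ} (f : Conf n) :
    Summable fun q : ℤ × ℕ => J α q * D f q ^ 2 := by
  have h1 : Summable fun q : ℤ × ℕ => (((f : ℤ → ℤ) q.1 : ℝ)) ^ 2 * (1 / ((q.2 : ℝ) + 1) ^ α) :=
    (summable_sq f).mul_of_nonneg (summable_J hα) (fun x => by positivity) (fun m => by positivity)
  have h2 : Summable fun q : ℤ × ℕ =>
      (((f : ℤ → ℤ) (q.1 + q.2 + 1) : ℝ)) ^ 2 * (1 / ((q.2 : ℝ) + 1) ^ α) :=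
    shiftEquiv.summable_iff.2 h1
  refine Summable.of_nonneg_of_le (fun q => by have := J_pos α q; positivity) (fun q => ?_)
    ((h1.add h2).mul_left 2)
  unfold D J
  have h3 : 0 < 1 / ((q.2 : ℝ) + 1) ^ α := by positivity
  nlinarith [sq_nonneg (((f : ℤ → ℤ) (q.1 + q.2 + 1) : ℝ) + (f : ℤ → ℤ) q.1), h3]

lemma summable_BB {α : ℝ} (hα : 1 < α) {n : ℕ} (f g : Conf n) :
    Summable fun q : ℤ × ℕ => J α q * (D f q * D g q) := by
  refine Summable.of_norm_bounded (g := fun q => J α q * D f q ^ 2 + J α q * D g q ^ 2)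
    ((summable_DD hα f).add (summable_DD hα g)) fun q => ?_
  have hJ := J_pos α q
  rw [Real.norm_eq_abs, abs_mul, abs_of_pos hJ, ← mul_add]
  apply mul_le_mul_of_nonneg_left _ hJ.le
  rw [abs_le]
  constructor <;> nlinarith [sq_nonneg (D f q + D g q), sq_nonneg (D f q - D g q)]

/-- The bilinear form. -/
def Bf (α : ℝ) {n : ℕ} (f g : Conf n) : ℝ := ∑' q : ℤ × ℕ, J α q * (D f q * D g q)

/-- The bilinear form, bundled. -/
def Bil {α : ℝ} (hα : 1 < α) (n : ℕ) : Conf n →+ Conf n →+ ℝ :=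
  AddMonoidHom.mk' (fun f => AddMonoidHom.mk' (fun g => Bf α f g) (fun g h => by
    unfold Bf
    rw [← (summable_BB hα f g).tsum_add (summable_BB hα f h)]
    apply tsum_congr
    intro q
    rw [AddSubgroup.coe_add, D_add]
    ring)) (fun f g => by
    ext h
    simp only [AddMonoidHom.mk'_apply, AddMonoidHom.add_apply]
    unfold Bf
    rw [← (summable_BB hα f h).tsum_add (summable_BB hα g h)]
    apply tsum_congr
    intro q
    rw [AddSubgroup.coe_add, D_add]
    ring)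

lemma Bil_apply {α : ℝ} (hα : 1 < α) {n : ℕ} (f g : Conf n) : Bil hα n f g = Bf α f g := rfl

lemma Bil_symm {α : ℝ} (hα : 1 < α) {n : ℕ} (f g : Conf n) : Bil hα n f g = Bil hα n g f := by
  simp only [Bil_apply, Bf]
  apply tsum_congr
  intro q
  ring

lemma Bil_self {α : ℝ} (hα : 1 < α) {n : ℕ} (f : Conf n) : Bil hα n f f = energy α f := by
  simp only [Bil_apply, Bf, energy]
  apply tsum_congr
  intro q
  unfold J D
  ring

/-- Coercivity. -/
lemma coercive {α : ℝ} (hα : 1 < α) {n : ℕ} (f : Conf n) :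
    (1 / (2 * (n : ℝ) + 1) ^ α) * ∑ i : Fin (2 * n + 1), (((f : ℤ → ℤ) ((i : ℤ) - n) : ℝ)) ^ 2 ≤
      energy α f := by
  rw [← Bil_self hα, Bil_apply, Bf]
  have hinj : Function.Injective fun i : Fin (2 * n + 1) => (((i : ℤ) - n, 2 * n - (i : ℕ)) : ℤ × ℕ) := by
    intro i j hij
    simp only [Prod.mk.injEq] at hij
    ext
    omega
  have h1 := (summable_BB hα f f).sum_le_tsum (Finset.univ.map ⟨_, hinj⟩) (fun q _ => by
    have := J_pos α q
    have := mul_self_nonneg (D f q)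
    positivity)
  refine le_trans ?_ h1
  rw [Finset.sum_map, Finset.mul_sum]
  apply Finset.sum_le_sum
  intro i _
  simp only [Function.Embedding.coeFn_mk]
  have hi := i.2
  have h2 : D f (((i : ℤ) - n, 2 * n - (i : ℕ)) : ℤ × ℕ) = - (((f : ℤ → ℤ) ((i : ℤ) - n) : ℝ)) := by
    unfold D
    simp only
    rw [f.2 ((i : ℤ) - n + ((2 * n - (i : ℕ) : ℕ) : ℤ) + 1)]
    · push_cast; ring
    · have : (i : ℤ) - n + ((2 * n - (i : ℕ) : ℕ) : ℤ) + 1 = n + 1 := by
        rw [Nat.cast_sub (by omega)]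
        push_cast
        ring
      rw [this, lt_abs]
      left
      omega
  rw [h2]
  have h3 : 1 / (2 * (n : ℝ) + 1) ^ α ≤ J α (((i : ℤ) - n, 2 * n - (i : ℕ)) : ℤ × ℕ) := by
    unfold J
    simp only
    apply one_div_le_one_div_of_le (by positivity)
    apply Real.rpow_le_rpow (by positivity) _ (by linarith)
    have : ((2 * n - (i : ℕ) : ℕ) : ℝ) ≤ 2 * n := by
      exact_mod_cast Nat.sub_le _ _
    linarith
  nlinarith [mul_le_mul_of_nonneg_right h3 (sq_nonneg (((f : ℤ → ℤ) ((i : ℤ) - n) : ℝ)))]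

lemma summable_gauss_int {c : ℝ} (hc : 0 < c) : Summable fun z : ℤ => exp (-c * (z : ℝ) ^ 2) := by
  have h1 : Summable fun m : ℕ => exp (-c * (m : ℝ)) := by
    have : Summable fun m : ℕ => (exp (-c)) ^ m :=
      summable_geometric_of_lt_one (exp_pos _).le (by rw [Real.exp_lt_one_iff]; linarith)
    refine this.congr fun m => ?_
    rw [← Real.exp_nat_mul]
    ring_nf
  have h2 : Summable fun m : ℕ => exp (-c * (m : ℝ) ^ 2) := by
    refine Summable.of_nonneg_of_le (fun m => (exp_pos _).le) (fun m => ?_) h1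
    apply Real.exp_le_exp.2
    have : (m : ℝ) ≤ (m : ℝ) ^ 2 := by
      rcases Nat.eq_zero_or_pos m with h | h
      · subst h; norm_num
      · have : (1 : ℝ) ≤ m := by exact_mod_cast h
        nlinarith
    nlinarith
  apply Summable.of_nat_of_neg
  · simpa using h2
  · simpa using h2

lemma summable_gauss {c : ℝ} (hc : 0 < c) : ∀ m : ℕ,
    Summable fun v : Fin m → ℤ => exp (-c * ∑ i, ((v i : ℝ)) ^ 2) := by
  intro m
  induction m with
  | zero => exact summable_of_hasFiniteSupport (Set.toFinite _)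
  | succ m ih =>
    rw [← (Fin.consEquiv fun _ : Fin (m + 1) => ℤ).summable_iff]
    have := (summable_gauss_int hc).mul_of_nonneg ih (fun z => (exp_pos _).le)
      (fun v => (exp_pos _).le)
    refine this.congr fun q => ?_
    simp only [Function.comp_apply, Fin.consEquiv_apply, Fin.sum_univ_succ, Fin.cons_zero,
      Fin.cons_succ]
    rw [← exp_add]
    congr 1
    ring

lemma summable_conf {c : ℝ} (hc : 0 < c) (n : ℕ) :
    Summable fun f : Conf n =>
      exp (-c * ∑ i : Fin (2 * n + 1), (((f : ℤ → ℤ) ((i : ℤ) - n) : ℝ)) ^ 2) := by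
  have hinj : Function.Injective fun (f : Conf n) (i : Fin (2 * n + 1)) =>
      (f : ℤ → ℤ) ((i : ℤ) - n) := by
    intro f g hfg
    ext x
    by_cases hx : (n : ℤ) < |x|
    · rw [f.2 x hx, g.2 x hx]
    · rw [not_lt, abs_le] at hx
      have := congrFun hfg ⟨(x + n).toNat, by omega⟩
      simp only at this
      have h2 : (((x + n).toNat : ℕ) : ℤ) - n = x := by omega
      rw [h2] at this
      exact this
  exact (summable_gauss hc (2 * n + 1)).comp_injective hinj

lemma summable_w {α β : ℝ} (hα : 1 < α) (hβ : 0 < β) (n : ℕ) : Summable (w (Bil hα n) β) := by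
  have hc : 0 < β * (1 / (2 * (n : ℝ) + 1) ^ α) := by positivity
  refine Summable.of_nonneg_of_le (fun f => (w_pos _ _ f).le) (fun f => ?_) (summable_conf hc n)
  unfold w
  apply Real.exp_le_exp.2
  rw [Bil_self]
  have := mul_le_mul_of_nonneg_left (coercive hα f) hβ.le
  linarith

lemma summable_w2 {α β : ℝ} (hα : 1 < α) (hβ : 0 < β) (n : ℕ) :
    Summable fun f : Conf n => (((f : ℤ → ℤ) 0 : ℝ)) ^ 2 * w (Bil hα n) β f := by
  set c := β * (1 / (2 * (n : ℝ) + 1) ^ α) with hcd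
  have hc : 0 < c := by positivity
  refine Summable.of_nonneg_of_le (fun f => mul_nonneg (sq_nonneg _) (w_pos _ _ f).le)
    (fun f => ?_) ((summable_conf (half_pos hc) n).mul_left (2 / c))
  set S := ∑ i : Fin (2 * n + 1), (((f : ℤ → ℤ) ((i : ℤ) - n) : ℝ)) ^ 2 with hS
  have h1 : w (Bil hα n) β f ≤ exp (-c * S) := by
    unfold w
    apply Real.exp_le_exp.2
    rw [Bil_self]
    have := mul_le_mul_of_nonneg_left (coercive hα f) hβ.le
    linarith
  have h2 : (((f : ℤ → ℤ) 0 : ℝ)) ^ 2 ≤ S := by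
    have := Finset.single_le_sum (f := fun i : Fin (2 * n + 1) =>
      (((f : ℤ → ℤ) ((i : ℤ) - n) : ℝ)) ^ 2) (fun i _ => sq_nonneg _)
      (Finset.mem_univ (⟨n, by omega⟩ : Fin (2 * n + 1)))
    simpa using this
  have h3 : c / 2 * S ≤ exp (c / 2 * S) := by
    have := Real.add_one_le_exp (c / 2 * S)
    linarith
  have hS0 : 0 ≤ S := Finset.sum_nonneg fun i _ => sq_nonneg _
  calc (((f : ℤ → ℤ) 0 : ℝ)) ^ 2 * w (Bil hα n) β f ≤ S * exp (-c * S) :=
        mul_le_mul h2 h1 (w_pos _ _ f).le hS0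
    _ ≤ (2 / c * exp (c / 2 * S)) * exp (-c * S) := by
        apply mul_le_mul_of_nonneg_right _ (exp_pos _).le
        rw [div_mul_eq_mul_div, le_div_iff₀ hc]
        linarith
    _ = 2 / c * exp (-(c / 2) * S) := by
        rw [mul_assoc, ← exp_add]
        congr 2
        ring

end

end Pool.Agent.Q288.DGC
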