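import Pool.Agent.Q288.DGC.Bound

set_option autoImplicit false

open Real

/-!
The random staircase and its second moment.
-/

namespace Pool.Agent.Q288.DGC

noncomputable section

/-- Indicator of `{-r, …, r}` as a configuration (`r` is truncated at `n`). -/
def ind (n r : ℕ) : Conf n := ⟨indF (min r n), fun x hx => by
  unfold indF
  rw [if_neg]
  rw [not_le]
  refine lt_of_le_of_lt ?_ hx
  exact_mod_cast min_le_right r n⟩

lemma ind_coe {n r : ℕ} (h : r ≤ n) : ((ind n r : Conf n) : ℤ → ℤ) = indF r := by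
  unfold ind
  simp only
  rw [min_eq_left h]

/-- Height at the origin. -/
def ht (n : ℕ) : Conf n →+ ℤ where
  toFun ψ := (ψ : ℤ → ℤ) 0
  map_zero' := rfl
  map_add' _ _ := rfl

lemma ht_ind (n r : ℕ) : ht n (ind n r) = 1 := by
  change (ind n r : ℤ → ℤ) 0 = 1
  unfold ind indF
  simp

/-- Parameter `η`. -/
def eta (C σ : ℝ) (m : ℕ) : ℝ := C * (1 + (m : ℝ)) ^ (-σ)

lemma eta_nonneg {C : ℝ} (hC : 0 ≤ C) (σ : ℝ) (m : ℕ) : 0 ≤ eta C σ m := by
  unfold eta; positivity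

lemma eta_le {C : ℝ} (hC : 0 ≤ C) {σ : ℝ} (hσ : 0 < σ) (m : ℕ) : eta C σ m ≤ C := by
  unfold eta
  have h : (1 + (m : ℝ)) ^ (-σ) ≤ 1 := by
    apply Real.rpow_le_one_of_one_le_of_nonpos _ (by linarith)
    have : (0 : ℝ) ≤ m := Nat.cast_nonneg m
    linarith
  nlinarith

/-- The constant. -/
def Cst (a : ℝ) : ℝ := 2 * (1 + 1 / a) ^ 2

lemma Cst_pos {a : ℝ} (ha : 0 < a) : 0 < Cst a := by unfold Cst; positivity

lemma Bil_ind_le {a : ℝ} (ha : 0 < a) (hα : 1 < 2 * (a + 1)) {n r s : ℕ} (hr : r ≤ n)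
    (hs : s ≤ n) :
    Bil hα n (ind n r) (ind n s) ≤ eta (Cst a) (2 * a) ((r : ℤ) - s).natAbs := by
  have key : ∀ r s : ℕ, r ≤ n → s ≤ n → r ≤ s →
      Bil hα n (ind n r) (ind n s) ≤ eta (Cst a) (2 * a) ((r : ℤ) - s).natAbs := by
    intro r s hr hs hrs
    have h1 := ind_bound ha hrs (by
      have := summable_BB hα (ind n r) (ind n s)
      rwa [ind_coe hr, ind_coe hs] at this)
    rw [Bil_apply]
    unfold Bf
    rw [ind_coe hr, ind_coe hs]
    refine h1.trans (le_of_eq ?_)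
    unfold eta Cst
    have : ((r : ℤ) - s).natAbs = s - r := by omega
    rw [this]
  rcases le_total r s with h | h
  · exact key r s hr hs h
  · rw [Bil_symm]
    have h2 := key s r hs hr h
    have : ((s : ℤ) - r).natAbs = ((r : ℤ) - s).natAbs := by omega
    rwa [this] at h2

/-- Radii. -/
def rad (l : ℕ) {k : ℕ} (a : Fin k → Fin l) (i : Fin k) : ℕ := 2 * l * i + a i

/-- The staircase. -/
def fam (n k l : ℕ) (a : Fin k → Fin l) : Conf n := ∑ i, ind n (rad l a i)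

lemma ht_fam (n k l : ℕ) (a : Fin k → Fin l) : ht n (fam n k l a) = k := by
  unfold fam
  rw [map_sum]
  simp [ht_ind]

lemma rad_le {n k l : ℕ} (h : 2 * l * k ≤ n + 1) (a : Fin k → Fin l) (i : Fin k) :
    rad l a i ≤ n := by
  unfold rad
  have h1 := (a i).2
  have h2 := i.2
  have h3 : 2 * l * (i + 1) ≤ 2 * l * k := Nat.mul_le_mul_left _ h2
  have h4 : 2 * l * ((i : ℕ) + 1) = 2 * l * i + 2 * l := by ring
  omega

/-- Interaction of a level with the staircase `b`. -/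
def Sb (C σ : ℝ) (l : ℕ) {k : ℕ} (b : Fin k → Fin l) (x : ℕ) : ℝ :=
  ∑ j, eta C σ ((x : ℤ) - rad l b j).natAbs

lemma Bil_fam_le {a : ℝ} (ha : 0 < a) (hα : 1 < 2 * (a + 1)) {n k l : ℕ} (h : 2 * l * k ≤ n + 1)
    (u v : Fin k → Fin l) :
    Bil hα n (fam n k l u) (fam n k l v) ≤ ∑ i, Sb (Cst a) (2 * a) l v (rad l u i) := by
  unfold fam Sb
  rw [map_sum (Bil hα n), AddMonoidHom.finsetSum_apply]
  apply Finset.sum_le_sum
  intro i _
  rw [map_sum]
  apply Finset.sum_le_sum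
  intro j _
  exact Bil_ind_le ha hα (rad_le h u i) (rad_le h v j)

lemma pi_avg {k l : ℕ} (hl : 1 ≤ l) (F : Fin k → Fin l → ℝ) (hF : ∀ i t, 0 ≤ F i t) (E : ℝ)
    (hE : ∀ i, ∑ t, F i t ≤ l * E) :
    ((l : ℝ) ^ k)⁻¹ * ∑ a : Fin k → Fin l, ∏ i, F i (a i) ≤ E ^ k := by
  have h1 : ∑ a : Fin k → Fin l, ∏ i, F i (a i) = ∏ i, ∑ t, F i t := by
    rw [Finset.prod_univ_sum, Fintype.piFinset_univ]
  rw [h1]
  have hl' : (0 : ℝ) < l := by exact_mod_cast hl
  have h2 : ∏ i, ∑ t, F i t ≤ ∏ _i : Fin k, ((l : ℝ) * E) :=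
    Finset.prod_le_prod (fun i _ => Finset.sum_nonneg fun t _ => hF i t) fun i _ => hE i
  rw [Finset.prod_const, Finset.card_univ, Fintype.card_fin, mul_pow] at h2
  rw [inv_mul_le_iff₀ (by positivity)]
  exact h2

lemma exp_le_lin {u K : ℝ} (h0 : 0 ≤ u) (hK : u ≤ K) : exp u ≤ 1 + u * exp K := by
  have h1 : 1 - u ≤ exp (-u) := by
    have := Real.add_one_le_exp (-u)
    linarith
  have h2 : exp u * exp (-u) = 1 := by rw [← exp_add]; simp
  have h3 : exp u ≤ exp K := exp_le_exp.2 hK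
  have h4 := exp_pos u
  nlinarith [mul_le_mul_of_nonneg_left h1 h4.le, mul_le_mul_of_nonneg_left h3 h0]

/-- Bound of one interaction sum. -/
lemma Sb_le {C σ : ℝ} (hC : 0 ≤ C) (h0 : 0 < σ) (h1 : σ < 1) {k l : ℕ} (hl : 1 ≤ l)
    (b : Fin k → Fin l) (i : Fin k) (t : Fin l) :
    Sb C σ l b (2 * l * i + t) ≤ eta C σ ((t : ℤ) - b i).natAbs +
      (C * 2 ^ (σ + 1) / (1 - σ)) * ((l : ℝ) ^ (-σ) * (k : ℝ) ^ (1 - σ)) := by
  have hl' : (0 : ℝ) < l := by exact_mod_cast hl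
  have hs : 0 < 1 - σ := by linarith
  -- termwise bound
  have key : ∀ j : Fin k, eta C σ (((2 * l * i + t : ℕ) : ℤ) - rad l b j).natAbs ≤
      (if j = i then eta C σ ((t : ℤ) - b i).natAbs else 0) +
        (C * 2 ^ σ * (l : ℝ) ^ (-σ)) * (1 + ((((j : ℕ) : ℤ) - i).natAbs : ℝ)) ^ (-σ) := by
    intro j
    by_cases hj : j = i
    · subst hj
      rw [if_pos rfl]
      have : (((2 * l * j + t : ℕ) : ℤ) - rad l b j).natAbs = ((t : ℤ) - b j).natAbs := by
        unfold rad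
        push_cast
        congr 1
        ring
      rw [this]
      have : 0 ≤ (C * 2 ^ σ * (l : ℝ) ^ (-σ)) * (1 + ((((j : ℕ) : ℤ) - j).natAbs : ℝ)) ^ (-σ) := by
        positivity
      linarith
    · rw [if_neg hj, zero_add]
      set d := (((j : ℕ) : ℤ) - i).natAbs with hd
      have hd1 : 1 ≤ d := by
        have : (j : ℕ) ≠ i := fun h => hj (Fin.ext h)
        omega
      set m := (((2 * l * i + t : ℕ) : ℤ) - rad l b j).natAbs with hm
      have hm1 : l * d ≤ m := by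
        have e1 : (((2 * l * i + t : ℕ) : ℤ) - rad l b j) =
            2 * l * ((i : ℤ) - j) + ((t : ℤ) - b j) := by
          unfold rad
          push_cast
          ring
        rw [hm, e1]
        have ht := t.2
        have hb := (b j).2
        have e2 : (2 * (l : ℤ) * ((i : ℤ) - j)).natAbs = 2 * l * d := by
          rw [Int.natAbs_mul, hd]
          have : (2 * (l : ℤ)).natAbs = 2 * l := by omega
          rw [this]
          congr 1
          omega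
        have e3 : ((t : ℤ) - b j).natAbs ≤ l := by omega
        have e4 : (2 * (l : ℤ) * ((i : ℤ) - j)).natAbs ≤
            (2 * (l : ℤ) * ((i : ℤ) - j) + ((t : ℤ) - b j)).natAbs + ((t : ℤ) - b j).natAbs := by
          have := Int.natAbs_sub_le (2 * (l : ℤ) * ((i : ℤ) - j) + ((t : ℤ) - b j)) ((t : ℤ) - b j)
          rwa [add_sub_cancel_right] at this
        rw [e2] at e4
        have e5 : l ≤ l * d := Nat.le_mul_of_pos_right _ hd1
        have e6 : 2 * l * d = 2 * (l * d) := by ring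
        omega
      unfold eta
      have hdR : (1 : ℝ) ≤ d := by exact_mod_cast hd1
      have hmR : (l : ℝ) * d ≤ m := by exact_mod_cast hm1
      have h2 : (l : ℝ) * (1 + d) / 2 ≤ 1 + m := by nlinarith
      have h3 : (1 + (m : ℝ)) ^ (-σ) ≤ ((l : ℝ) * (1 + d) / 2) ^ (-σ) :=
        Real.rpow_le_rpow_of_nonpos (by positivity) h2 (by linarith)
      have h4 : ((l : ℝ) * (1 + d) / 2) ^ (-σ) = 2 ^ σ * (l : ℝ) ^ (-σ) * (1 + (d : ℝ)) ^ (-σ) := by
        rw [Real.div_rpow (by positivity) (by norm_num), Real.mul_rpow hl'.le (by positivity),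
          Real.rpow_neg (by norm_num : (0 : ℝ) ≤ 2) σ]
        field_simp
      rw [h4] at h3
      calc C * (1 + (m : ℝ)) ^ (-σ) ≤ C * (2 ^ σ * (l : ℝ) ^ (-σ) * (1 + (d : ℝ)) ^ (-σ)) :=
            mul_le_mul_of_nonneg_left h3 hC
        _ = _ := by ring
  unfold Sb
  refine (Finset.sum_le_sum fun j _ => key j).trans ?_
  rw [Finset.sum_add_distrib, Finset.sum_ite_eq' Finset.univ i, if_pos (Finset.mem_univ i),
    ← Finset.mul_sum]
  have h2 : ∑ j : Fin k, (1 + ((((j : ℕ) : ℤ) - i).natAbs : ℝ)) ^ (-σ) ≤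
      2 * ((k : ℝ) ^ (1 - σ) / (1 - σ)) := by
    rw [Fin.sum_univ_eq_sum_range (fun j : ℕ => (1 + (((j : ℤ) - i).natAbs : ℝ)) ^ (-σ)) k]
    refine (dist_sum (fun m => (1 + (m : ℝ)) ^ (-σ)) (fun m => by positivity) k i i.2).trans ?_
    exact mul_le_mul_of_nonneg_left (part_sum h0 h1 k) (by norm_num)
  have h3 : 0 ≤ C * 2 ^ σ * (l : ℝ) ^ (-σ) := by positivity
  have h4 := mul_le_mul_of_nonneg_left h2 h3
  have h5 : C * 2 ^ σ * (l : ℝ) ^ (-σ) * (2 * ((k : ℝ) ^ (1 - σ) / (1 - σ))) =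
      (C * 2 ^ (σ + 1) / (1 - σ)) * ((l : ℝ) ^ (-σ) * (k : ℝ) ^ (1 - σ)) := by
    rw [Real.rpow_add (by norm_num : (0 : ℝ) < 2), Real.rpow_one]
    ring
  linarith

lemma Sb_nonneg {C : ℝ} (hC : 0 ≤ C) (σ : ℝ) {k l : ℕ} (b : Fin k → Fin l) (x : ℕ) :
    0 ≤ Sb C σ l b x := Finset.sum_nonneg fun _ _ => eta_nonneg hC σ _

/-- One block of the second moment. -/
lemma block {C σ β : ℝ} (hC : 0 < C) (h0 : 0 < σ) (h1 : σ < 1) (hβ : 0 < β) {k l : ℕ}
    (hk : 1 ≤ k) (hl : 1 ≤ l) (b : Fin k → Fin l) (i : Fin k)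
    (hQ : (l : ℝ) ^ (-σ) * (k : ℝ) ^ (1 - σ) ≤ 1) :
    ∑ t : Fin l, exp (2 * β * Sb C σ l b (2 * l * i + t)) ≤
      l * exp (4 * β * (C * 2 ^ (σ + 1) / (1 - σ)) *
        exp (2 * β * (C + C * 2 ^ (σ + 1) / (1 - σ))) *
        ((l : ℝ) ^ (-σ) * (k : ℝ) ^ (1 - σ))) := by
  set Q := (l : ℝ) ^ (-σ) * (k : ℝ) ^ (1 - σ) with hQd
  set C1 := C * 2 ^ (σ + 1) / (1 - σ) with hC1
  have hs : 0 < 1 - σ := by linarith
  have hl' : (0 : ℝ) < l := by exact_mod_cast hl
  have hk' : (1 : ℝ) ≤ k := by exact_mod_cast hk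
  have hQ0 : 0 < Q := by positivity
  have hC1p : 0 < C1 := by positivity
  set E := exp (2 * β * (C + C1)) with hE
  have hEp : 0 < E := exp_pos _
  have hb : ∀ t : Fin l, exp (2 * β * Sb C σ l b (2 * l * i + t)) ≤
      1 + 2 * β * (eta C σ ((t : ℤ) - b i).natAbs + C1 * Q) * E := by
    intro t
    have h2 := Sb_le hC.le h0 h1 hl b i t
    have h3 := Sb_nonneg hC.le σ b (2 * l * i + t)
    have h4 := eta_le hC.le h0 (((t : ℤ) - b i).natAbs)
    have h5 : C1 * Q ≤ C1 := by nlinarith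
    refine (exp_le_lin (by positivity) (K := 2 * β * (C + C1)) ?_).trans ?_
    · apply mul_le_mul_of_nonneg_left _ (by positivity)
      linarith
    · have : 2 * β * Sb C σ l b (2 * l * i + t) ≤
          2 * β * (eta C σ ((t : ℤ) - b i).natAbs + C1 * Q) :=
        mul_le_mul_of_nonneg_left h2 (by positivity)
      nlinarith
  refine (Finset.sum_le_sum fun t _ => hb t).trans ?_
  have h2 : ∑ t : Fin l, eta C σ ((t : ℤ) - b i).natAbs ≤ 2 * (C * ((l : ℝ) ^ (1 - σ) / (1 - σ))) := by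
    rw [Fin.sum_univ_eq_sum_range (fun t : ℕ => eta C σ ((t : ℤ) - b i).natAbs) l]
    refine (dist_sum (eta C σ) (eta_nonneg hC.le σ) l (b i) (b i).2).trans ?_
    apply mul_le_mul_of_nonneg_left _ (by norm_num)
    unfold eta
    rw [← Finset.mul_sum]
    exact mul_le_mul_of_nonneg_left (part_sum h0 h1 l) hC.le
  have h3 : 2 * (C * ((l : ℝ) ^ (1 - σ) / (1 - σ))) ≤ l * (C1 * Q) := by
    have e1 : (l : ℝ) ^ (1 - σ) = l * (l : ℝ) ^ (-σ) := by
      rw [sub_eq_add_neg, Real.rpow_add hl', Real.rpow_one]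
    have e2 : (l : ℝ) ^ (-σ) ≤ Q := by
      rw [hQd]
      have : 1 ≤ (k : ℝ) ^ (1 - σ) := Real.one_le_rpow hk' hs.le
      have h : 0 < (l : ℝ) ^ (-σ) := by positivity
      nlinarith
    have e3 : 2 * C / (1 - σ) ≤ C1 := by
      rw [hC1]
      apply div_le_div_of_nonneg_right _ hs.le
      have : (2 : ℝ) ^ (1 : ℝ) ≤ 2 ^ (σ + 1) :=
        Real.rpow_le_rpow_of_exponent_le (by norm_num) (by linarith)
      rw [Real.rpow_one] at this
      nlinarith
    calc 2 * (C * ((l : ℝ) ^ (1 - σ) / (1 - σ))) = l * ((2 * C / (1 - σ)) * (l : ℝ) ^ (-σ)) := by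
          rw [e1]; ring
      _ ≤ l * (C1 * Q) := by
          apply mul_le_mul_of_nonneg_left _ hl'.le
          exact mul_le_mul e3 e2 (by positivity) hC1p.le
  have h4 : ∑ t : Fin l, (1 + 2 * β * (eta C σ ((t : ℤ) - b i).natAbs + C1 * Q) * E) =
      l + 2 * β * E * ∑ t : Fin l, eta C σ ((t : ℤ) - b i).natAbs + l * (2 * β * (C1 * Q) * E) := by
    rw [Finset.mul_sum, Finset.sum_add_distrib]
    simp only [Finset.sum_const, Finset.card_univ, Fintype.card_fin, nsmul_eq_mul, mul_one]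
    have : ∀ t : Fin l, 2 * β * (eta C σ ((t : ℤ) - b i).natAbs + C1 * Q) * E =
        2 * β * E * eta C σ ((t : ℤ) - b i).natAbs + 2 * β * (C1 * Q) * E := fun t => by ring
    simp only [this, Finset.sum_add_distrib, Finset.sum_const, Finset.card_univ, Fintype.card_fin,
      nsmul_eq_mul]
    ring
  rw [h4]
  have h5 : 2 * β * E * ∑ t : Fin l, eta C σ ((t : ℤ) - b i).natAbs ≤
      2 * β * E * (l * (C1 * Q)) := mul_le_mul_of_nonneg_left (h2.trans h3) (by positivity)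
  have h6 := Real.add_one_le_exp (4 * β * C1 * E * Q)
  have h7 := mul_le_mul_of_nonneg_left h6 hl'.le
  have h8 : (l : ℝ) * (4 * β * C1 * E * Q + 1) = l + 2 * β * E * (l * (C1 * Q)) +
      l * (2 * β * (C1 * Q) * E) := by ring
  linarith

/-- The exponent constant. -/
def Kst (C σ β : ℝ) : ℝ := 4 * β * (C * 2 ^ (σ + 1) / (1 - σ)) *
        exp (2 * β * (C + C * 2 ^ (σ + 1) / (1 - σ)))

lemma Kst_pos {C σ β : ℝ} (hC : 0 < C) (h1 : σ < 1) (hβ : 0 < β) : 0 < Kst C σ β := by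
  have : 0 < 1 - σ := by linarith
  unfold Kst; positivity

instance {k l : ℕ} [NeZero l] : Nonempty (Fin k → Fin l) := ⟨fun _ => 0⟩

/-- The second moment bound. -/
lemma M2_le {a β : ℝ} (ha : 0 < a) (ha2 : 2 * a < 1) (hα : 1 < 2 * (a + 1)) (hβ : 0 < β)
    {n k l : ℕ} (hk : 1 ≤ k) (hl : 1 ≤ l) (h : 2 * l * k ≤ n + 1)
    (hQ : (k : ℝ) * ((l : ℝ) ^ (-(2 * a)) * (k : ℝ) ^ (1 - 2 * a)) ≤ 1)
    (hQ2 : Kst (Cst a) (2 * a) β *
      ((k : ℝ) * ((l : ℝ) ^ (-(2 * a)) * (k : ℝ) ^ (1 - 2 * a))) ≤ 1 / 5) :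
    M2 (Bil hα n) β (fam n k l) ≤ 5 / 4 := by
  have : NeZero l := ⟨by omega⟩
  set σ := 2 * a with hσ
  set C := Cst a with hC
  have hCp : 0 < C := Cst_pos ha
  set Q := (l : ℝ) ^ (-σ) * (k : ℝ) ^ (1 - σ) with hQd
  have hl' : (0 : ℝ) < l := by exact_mod_cast hl
  have hk' : (1 : ℝ) ≤ k := by exact_mod_cast hk
  have hQ0 : 0 < Q := by positivity
  have hQ1 : Q ≤ 1 := by nlinarith
  have hcard : (Fintype.card (Fin k → Fin l) : ℝ) = (l : ℝ) ^ k := by
    rw [Fintype.card_fun, Fintype.card_fin, Fintype.card_fin]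
    push_cast
    rfl
  have hinner : ∀ v : Fin k → Fin l,
      (Fintype.card (Fin k → Fin l) : ℝ)⁻¹ *
        ∑ u : Fin k → Fin l, exp (2 * β * Bil hα n (fam n k l u) (fam n k l v)) ≤ 5 / 4 := by
    intro v
    have e1 : ∀ u : Fin k → Fin l, exp (2 * β * Bil hα n (fam n k l u) (fam n k l v)) ≤
        ∏ i, exp (2 * β * Sb C σ l v (2 * l * i + u i)) := by
      intro u
      rw [← Real.exp_sum, ← Finset.mul_sum]
      apply exp_le_exp.2
      apply mul_le_mul_of_nonneg_left _ (by positivity)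
      exact Bil_fam_le ha hα h u v
    have e2 := pi_avg (k := k) hl (fun i t => exp (2 * β * Sb C σ l v (2 * l * i + t)))
      (fun i t => (exp_pos _).le) (exp (Kst C σ β * Q)) (fun i =>
        block hCp (by rw [hσ]; linarith) ha2 hβ hk hl v i hQ1)
    rw [hcard]
    calc ((l : ℝ) ^ k)⁻¹ * ∑ u : Fin k → Fin l,
          exp (2 * β * Bil hα n (fam n k l u) (fam n k l v)) ≤
          ((l : ℝ) ^ k)⁻¹ * ∑ u : Fin k → Fin l, ∏ i, exp (2 * β * Sb C σ l v (2 * l * i + u i)) :=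
          mul_le_mul_of_nonneg_left (Finset.sum_le_sum fun u _ => e1 u) (by positivity)
      _ ≤ exp (Kst C σ β * Q) ^ k := e2
      _ = exp (Kst C σ β * (k * Q)) := by
          rw [← Real.exp_nat_mul]
          congr 1
          ring
      _ ≤ exp (1 / 5) := exp_le_exp.2 hQ2
      _ ≤ 5 / 4 := by
          have h2 : exp (1 / 5) * exp (-(1 / 5)) = 1 := by rw [← exp_add]; simp
          have h3 := Real.add_one_le_exp (-(1 / 5 : ℝ))
          have h4 := exp_pos (1 / 5 : ℝ)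
          nlinarith
  unfold M2
  rw [Finset.sum_comm, Finset.mul_sum]
  calc (Fintype.card (Fin k → Fin l) : ℝ)⁻¹ * ∑ v : Fin k → Fin l,
        (Fintype.card (Fin k → Fin l) : ℝ)⁻¹ *
          ∑ u : Fin k → Fin l, exp (2 * β * Bil hα n (fam n k l u) (fam n k l v))
      ≤ (Fintype.card (Fin k → Fin l) : ℝ)⁻¹ * ∑ _v : Fin k → Fin l, (5 / 4 : ℝ) := by
        apply mul_le_mul_of_nonneg_left _ (by positivity)
        exact Finset.sum_le_sum fun v _ => hinner v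
    _ = 5 / 4 := avg_const _

end

end Pool.Agent.Q288.DGC
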